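import Pool.Agent.H27.HB.TX
import Pool.Agent.H47.HB.BQE

/-!
# MP_8352e3_an, row BBE: the second divided difference of a power
-/

set_option autoImplicit false

namespace Pool.Agent.H54.HB
open MeasureTheory Set Filter Topology Pool.Agent.H80.HS Pool.Agent.H93.HQ Pool.Agent.H27.HB

namespace BBE

theorem cauchy {q s a b t : ℝ} (hq : 2 < q) (hab : a < b)
    (hst : (s = a ∧ t = b) ∨ (s = b ∧ t = a)) :
    ∃ e, a ≤ e ∧ e ≤ b ∧
      t ^ q - s ^ q - q * s ^ (q - 1) * (t - s) = q * (q - 1) / 2 * e ^ (q - 2) * (t - s) ^ 2 := by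
  have hF : ∀ x : ℝ, HasDerivAt (fun x : ℝ => x ^ q - s ^ q - q * s ^ (q - 1) * (x - s))
      (q * x ^ (q - 1) - q * s ^ (q - 1)) x := by
    intro x
    have h1 := (Real.hasDerivAt_rpow_const (x := x) (p := q) (Or.inr (by linarith))).sub_const
      (s ^ q)
    have h2 := ((hasDerivAt_id x).sub_const s).const_mul (q * s ^ (q - 1))
    have h3 := h1.sub h2
    rw [mul_one] at h3
    exact h3
  have hG : ∀ x : ℝ, HasDerivAt (fun x : ℝ => (x - s) ^ 2) (2 * (x - s)) x := by
    intro x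
    have h1 : HasDerivAt (fun x : ℝ => x - s) 1 x := (hasDerivAt_id x).sub_const s
    have h2 := h1.fun_pow 2
    simpa using h2
  obtain ⟨c, hc, hceq⟩ := exists_ratio_hasDerivAt_eq_ratio_slope
    (fun x : ℝ => x ^ q - s ^ q - q * s ^ (q - 1) * (x - s))
    (fun x : ℝ => q * x ^ (q - 1) - q * s ^ (q - 1)) hab
    (fun x _ => (hF x).continuousAt.continuousWithinAt) (fun x _ => hF x)
    (fun x : ℝ => (x - s) ^ 2) (fun x : ℝ => 2 * (x - s))
    (fun x _ => (hG x).continuousAt.continuousWithinAt) (fun x _ => hG x)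
  have hq1 : 1 < q - 1 := by linarith
  obtain ⟨e, he1, he2, he3⟩ := Pool.Agent.H47.HB.BQE.mv (r := q - 1) (s := c) (t := s) hq1
  have hd := Pool.Agent.H47.HB.BQE.dd_mul hq1 c s
  have h5 : q - 1 - 1 = q - 2 := by ring
  rw [he3, h5] at hd
  have hsa : a ≤ s ∧ s ≤ b := by
    rcases hst with ⟨h1, -⟩ | ⟨h1, -⟩
    · rw [h1]
      exact ⟨le_rfl, hab.le⟩
    · rw [h1]
      exact ⟨hab.le, le_rfl⟩
  have hcs : c - s ≠ 0 := by
    rcases hst with ⟨h1, -⟩ | ⟨h1, -⟩
    · rw [h1]
      exact (sub_pos.2 hc.1).ne'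
    · rw [h1]
      exact (sub_neg.2 hc.2).ne
  refine ⟨e, (le_min hc.1.le hsa.1).trans he1, he2.trans (max_le hc.2.le hsa.2), ?_⟩
  have h6 : q * c ^ (q - 1) - q * s ^ (q - 1) = q * ((q - 1) * e ^ (q - 2) * (c - s)) := by
    rw [← hd]
    ring
  have h7 : (t ^ q - s ^ q - q * s ^ (q - 1) * (t - s)) * (2 * (c - s)) =
      (t - s) ^ 2 * (q * ((q - 1) * e ^ (q - 2) * (c - s))) := by
    rw [← h6]
    rcases hst with ⟨h1, h2⟩ | ⟨h1, h2⟩
    · subst h1
      subst h2
      simp only [sub_self, mul_zero, sub_zero] at hceq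
      linear_combination -hceq
    · subst h1
      subst h2
      simp only [sub_self, mul_zero] at hceq
      linear_combination hceq
  have h8 : (t ^ q - s ^ q - q * s ^ (q - 1) * (t - s) -
      q * (q - 1) / 2 * e ^ (q - 2) * (t - s) ^ 2) * (2 * (c - s)) = 0 := by
    linear_combination h7
  rcases mul_eq_zero.1 h8 with h9 | h9
  · linarith
  · exact absurd h9 (mul_ne_zero two_ne_zero hcs)

theorem mv2 {q : ℝ} (hq : 2 < q) (s t : ℝ) : ∃ e, min s t ≤ e ∧ e ≤ max s t ∧
    t ^ q - s ^ q - q * s ^ (q - 1) * (t - s) = q * (q - 1) / 2 * e ^ (q - 2) * (t - s) ^ 2 ∧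
    bb q s t = e ^ (q - 2) := by
  have key : ∀ e : ℝ, s ≠ t →
      t ^ q - s ^ q - q * s ^ (q - 1) * (t - s) = q * (q - 1) / 2 * e ^ (q - 2) * (t - s) ^ 2 →
      bb q s t = e ^ (q - 2) := by
    intro e hst h
    unfold bb
    rw [if_neg hst, h]
    have h1 : t - s ≠ 0 := sub_ne_zero.2 (Ne.symm hst)
    have h2 : q ≠ 0 := by linarith
    have h3 : q - 1 ≠ 0 := by linarith
    field_simp
  rcases lt_trichotomy s t with h | h | h
  · obtain ⟨e, h1, h2, h3⟩ := cauchy (s := s) (t := t) hq h (Or.inl ⟨rfl, rfl⟩)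
    exact ⟨e, (min_le_left _ _).trans h1, h2.trans (le_max_right _ _), h3, key e h.ne h3⟩
  · refine ⟨s, min_le_left _ _, le_max_left _ _, ?_, ?_⟩
    · rw [h]
      ring
    · unfold bb
      rw [if_pos h]
  · obtain ⟨e, h1, h2, h3⟩ := cauchy (s := s) (t := t) hq h (Or.inr ⟨rfl, rfl⟩)
    exact ⟨e, (min_le_right _ _).trans h1, h2.trans (le_max_left _ _), h3, key e h.ne' h3⟩

end BBE

/-- BBE: properties of the second divided difference. -/
theorem pf_BBE : T_BBE := by
  refine ⟨?_, ?_, ?_⟩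
  · intro q s t hq hs ht
    obtain ⟨e, h1, h2, h3, h4⟩ := BBE.mv2 hq s t
    have he : 0 ≤ e := (le_min hs ht).trans h1
    rw [h4]
    exact ⟨h3, Real.rpow_nonneg he _, Real.rpow_le_rpow he h2 (by linarith)⟩
  · intro q s t Q L hQ hL hq hs ht
    have h1 : ∀ k, ∃ c, min (s k) (t k) ≤ c ∧ c ≤ max (s k) (t k) ∧
        (2 < q k → bb (q k) (s k) (t k) = c ^ (q k - 2)) := by
      intro k
      by_cases h : 2 < q k
      · obtain ⟨c, h1, h2, -, h3⟩ := BBE.mv2 h (s k) (t k)
        exact ⟨c, h1, h2, fun _ => h3⟩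
      · exact ⟨s k, min_le_left _ _, le_max_left _ _, fun h' => absurd h' h⟩
    choose c hc1 hc2 hc3 using h1
    have hc : Tendsto c atTop (𝓝 L) := by
      refine tendsto_of_tendsto_of_tendsto_of_le_of_le ?_ ?_ hc1 hc2
      · have := hs.min ht
        rwa [min_self] at this
      · have := hs.max ht
        rwa [max_self] at this
    have h2 : Tendsto (fun k => c k ^ (q k - 2)) atTop (𝓝 (L ^ (Q - 2))) :=
      hc.rpow (hq.sub_const 2) (Or.inl hL.ne')
    refine h2.congr' ?_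
    filter_upwards [hq.eventually (lt_mem_nhds hQ)] with k hk
    exact (hc3 k hk).symm
  · intro q
    unfold bb
    refine Measurable.ite (measurableSet_eq_fun measurable_fst measurable_snd) ?_ ?_
    · exact measurable_fst.pow_const _
    · exact (((measurable_snd.pow_const _).sub (measurable_fst.pow_const _)).sub
        (((measurable_fst.pow_const _).const_mul _).mul
          (measurable_snd.sub measurable_fst))).div
        (((measurable_snd.sub measurable_fst).pow_const 2).const_mul _)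

end Pool.Agent.H54.HB
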