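import Pool.Agent.H27.HB.Defs

/-!
# HB board: small tools on integrals of powers
-/

set_option autoImplicit false

namespace Pool.Agent.H54.HB
open MeasureTheory Set Filter Topology Pool.Agent.H80.HS Pool.Agent.H93.HQ Pool.Agent.H27.HB
open scoped ContDiff ENNReal

namespace Tools

variable {α : Type*} [MeasurableSpace α] {μ : Measure α} {E : Type*} [NormedAddCommGroup E]

theorem int_rpow {f : α → E} {p : ℝ} (hp : 0 < p) (hf : MemLp f (ENNReal.ofReal p) μ) :
    Integrable (fun z => ‖f z‖ ^ p) μ := by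
  have h := hf.integrable_norm_rpow (by simpa using hp) ENNReal.ofReal_ne_top
  rwa [ENNReal.toReal_ofReal hp.le] at h

theorem memLp_of {f : α → E} {p : ℝ} (hp : 0 < p) (hf : AEStronglyMeasurable f μ)
    (hi : Integrable (fun z => ‖f z‖ ^ p) μ) : MemLp f (ENNReal.ofReal p) μ := by
  have h := integrable_norm_rpow_iff (p := ENNReal.ofReal p) hf (by simpa using hp)
    ENNReal.ofReal_ne_top
  rw [ENNReal.toReal_ofReal hp.le] at h
  exact h.1 hi

/-- Hoelder's inequality for nonnegative functions -/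
theorem holder {f g : α → ℝ} {a b : ℝ} (ha : 0 < a) (hb : 0 < b) (hab : a + b = 1)
    (hf : Integrable f μ) (hg : Integrable g μ) (hf0 : ∀ z, 0 ≤ f z) (hg0 : ∀ z, 0 ≤ g z) :
    ∫ z, f z ^ a * g z ^ b ∂μ ≤ (∫ z, f z ∂μ) ^ a * (∫ z, g z ∂μ) ^ b := by
  have hpq : (1 / a).HolderConjugate (1 / b) := by
    rw [Real.holderConjugate_iff]
    refine ⟨?_, by simpa using hab⟩
    rw [one_lt_div ha]
    linarith
  have h1 : ∀ {k : α → ℝ} {c : ℝ}, 0 < c → Integrable k μ → (∀ z, 0 ≤ k z) →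
      MemLp (fun z => k z ^ c) (ENNReal.ofReal (1 / c)) μ ∧
      ∫ z, (k z ^ c) ^ (1 / c) ∂μ = ∫ z, k z ∂μ := by
    intro k c hc hk hk0
    have h2 : ∀ z, (k z ^ c) ^ (1 / c) = k z := by
      intro z
      rw [← Real.rpow_mul (hk0 z), mul_one_div_cancel hc.ne', Real.rpow_one]
    refine ⟨memLp_of (by positivity) ?_ ?_, ?_⟩
    · exact (hk.1.aemeasurable.pow_const c).aestronglyMeasurable
    · refine hk.congr (Eventually.of_forall fun z => ?_)
      show k z = ‖k z ^ c‖ ^ (1 / c)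
      rw [Real.norm_of_nonneg (Real.rpow_nonneg (hk0 z) c), h2]
    · simp only [h2]
  obtain ⟨h2, h3⟩ := h1 ha hf hf0
  obtain ⟨h4, h5⟩ := h1 hb hg hg0
  have h6 := integral_mul_le_Lp_mul_Lq_of_nonneg hpq
    (Eventually.of_forall fun z => Real.rpow_nonneg (hf0 z) a)
    (Eventually.of_forall fun z => Real.rpow_nonneg (hg0 z) b) h2 h4
  rw [h3, h5, one_div_one_div, one_div_one_div] at h6
  exact h6

theorem add_rpow_le {p a b : ℝ} (hp : 1 ≤ p) (ha : 0 ≤ a) (hb : 0 ≤ b) :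
    (a + b) ^ p ≤ 2 ^ (p - 1) * (a ^ p + b ^ p) := by
  have h := NNReal.rpow_add_le_mul_rpow_add_rpow ⟨a, ha⟩ ⟨b, hb⟩ hp
  exact_mod_cast h

end Tools

end Pool.Agent.H54.HB
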