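import Pool.Agent.H27.HB.TA
import Pool.Agent.H27.HB.TF

/-!
# HB board, module ZID: identities for the Cayley transform
-/

set_option autoImplicit false

namespace Pool.Agent.H54.HB
open MeasureTheory Set Filter Topology Pool.Agent.H80.HS Pool.Agent.H93.HQ Pool.Agent.H27.HB
open scoped ContDiff ENNReal

namespace ZID

variable {n : ℕ}

/-! ### Derivatives -/

/-- the three coordinate maps -/
noncomputable def L1 (n : ℕ) : H n →L[ℝ] V n := ContinuousLinearMap.fst ℝ (V n) (V n × ℝ)
noncomputable def L2 (n : ℕ) : H n →L[ℝ] V n :=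
  (ContinuousLinearMap.fst ℝ (V n) ℝ).comp (ContinuousLinearMap.snd ℝ (V n) (V n × ℝ))
noncomputable def L3 (n : ℕ) : H n →L[ℝ] ℝ :=
  (ContinuousLinearMap.snd ℝ (V n) ℝ).comp (ContinuousLinearMap.snd ℝ (V n) (V n × ℝ))

theorem hL1 (z : H n) : HasFDerivAt (fun z : H n => z.1) (L1 n) z := (L1 n).hasFDerivAt
theorem hL2 (z : H n) : HasFDerivAt (fun z : H n => z.2.1) (L2 n) z := (L2 n).hasFDerivAt
theorem hL3 (z : H n) : HasFDerivAt (fun z : H n => z.2.2) (L3 n) z := (L3 n).hasFDerivAt

/-- the derivative of `|z|^2` -/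
theorem hsq (z : H n) : HasFDerivAt (sq : H n → ℝ)
    (2 • (innerSL ℝ z.1).comp (L1 n) + 2 • (innerSL ℝ z.2.1).comp (L2 n)) z :=
  (hL1 z).norm_sq.add (hL2 z).norm_sq

theorem nu_eq (z : H n) : nu z = ((1 + sq z : ℝ) : ℂ) - (z.2.2 : ℂ) * Complex.I := by
  apply Complex.ext <;> simp [nu]

theorem zc_eq (k : Fin n) (z : H n) : zc k z = (z.1 k : ℂ) + (z.2.1 k : ℂ) * Complex.I := by
  apply Complex.ext <;> simp [zc]

/-- a function with values in `ℂ` from its real and imaginary part -/
theorem hasF {f g : H n → ℝ} {f' g' : H n →L[ℝ] ℝ} {z : H n} (hf : HasFDerivAt f f' z)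
    (hg : HasFDerivAt g g' z) : HasFDerivAt (fun y => (⟨f y, g y⟩ : ℂ))
      (Complex.ofRealCLM.comp f' + (Complex.ofRealCLM.comp g').smulRight Complex.I) z := by
  have h1 : HasFDerivAt (fun y => (f y : ℂ)) (Complex.ofRealCLM.comp f') z :=
    Complex.ofRealCLM.hasFDerivAt.comp z hf
  have h2 : HasFDerivAt (fun y => (g y : ℂ)) (Complex.ofRealCLM.comp g') z :=
    Complex.ofRealCLM.hasFDerivAt.comp z hg
  have h3 := h1.add (h2.smul_const Complex.I)
  refine h3.congr_of_eventuallyEq (Eventually.of_forall fun y => ?_)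
  apply Complex.ext <;> simp

/-- the directional derivative of a function with values in `ℂ` -/
theorem fd_mk {f g : H n → ℝ} {f' g' : H n →L[ℝ] ℝ} {z : H n} (hf : HasFDerivAt f f' z)
    (hg : HasFDerivAt g g' z) (v : H n) :
    fderiv ℝ (fun y => (⟨f y, g y⟩ : ℂ)) z v = ⟨f' v, g' v⟩ := by
  rw [(hasF hf hg).fderiv]
  apply Complex.ext <;> simp

theorem diff_nu (z : H n) : DifferentiableAt ℝ (nu : H n → ℂ) z :=
  (hasF ((hsq z).const_add 1) (hL3 z).neg).differentiableAt

theorem fd_nu (z v : H n) : fderiv ℝ nu z v =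
    ⟨2 * inner ℝ z.1 v.1 + 2 * inner ℝ z.2.1 v.2.1, - v.2.2⟩ := by
  refine (fd_mk ((hsq z).const_add 1) (hL3 z).neg v).trans ?_
  apply Complex.ext
  · simp [L1, L2]
  · simp [L3]

theorem hzc (k : Fin n) (z : H n) : HasFDerivAt (fun z : H n => z.1 k)
    ((EuclideanSpace.proj k : V n →L[ℝ] ℝ).comp (L1 n)) z :=
  ((EuclideanSpace.proj k : V n →L[ℝ] ℝ).comp (L1 n)).hasFDerivAt

theorem hzc' (k : Fin n) (z : H n) : HasFDerivAt (fun z : H n => z.2.1 k)
    ((EuclideanSpace.proj k : V n →L[ℝ] ℝ).comp (L2 n)) z :=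
  ((EuclideanSpace.proj k : V n →L[ℝ] ℝ).comp (L2 n)).hasFDerivAt

theorem diff_zc (k : Fin n) (z : H n) : DifferentiableAt ℝ (zc k : H n → ℂ) z :=
  (hasF (hzc k z) (hzc' k z)).differentiableAt

theorem fd_zc (k : Fin n) (z v : H n) : fderiv ℝ (zc k) z v = ⟨v.1 k, v.2.1 k⟩ := by
  refine (fd_mk (hzc k z) (hzc' k z) v).trans ?_
  apply Complex.ext
  · simp [L1]
  · simp [L2]

theorem X_nu (z : H n) (j : Fin n) : X nu j z = 2 * (starRingEnd ℂ) (zc j z) := by
  unfold X
  rw [fd_nu]
  apply Complex.ext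
  · simp [zc, EuclideanSpace.inner_single_right]
  · simp [zc]

theorem Y_nu (z : H n) (j : Fin n) : Y nu j z = Complex.I * (2 * (starRingEnd ℂ) (zc j z)) := by
  unfold Y
  rw [fd_nu]
  apply Complex.ext
  · simp [zc, EuclideanSpace.inner_single_right]
  · simp [zc]

theorem X_zc (z : H n) (k j : Fin n) : X (zc k) j z = if k = j then 1 else 0 := by
  unfold X
  rw [fd_zc]
  apply Complex.ext
  · by_cases h : k = j <;> simp [h]
  · by_cases h : k = j <;> simp [h]

theorem Y_zc (z : H n) (k j : Fin n) : Y (zc k) j z = Complex.I * if k = j then 1 else 0 := by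
  unfold Y
  rw [fd_zc]
  apply Complex.ext
  · by_cases h : k = j <;> simp [h]
  · by_cases h : k = j <;> simp [h]

theorem nu_ne (z : H n) : nu z ≠ 0 := by
  intro h
  have h1 : (nu z).re = 0 := by rw [h]; rfl
  have h2 : (nu z).re = 1 + sq z := rfl
  have h3 : 0 ≤ H93.HQ.sq z := sq_nonneg' z
  linarith

/-- quotient rule -/
theorem fd_div {A B : H n → ℂ} {z : H n} (hA : DifferentiableAt ℝ A z)
    (hB : DifferentiableAt ℝ B z) (h0 : B z ≠ 0) (v : H n) :
    DifferentiableAt ℝ (fun y => A y / B y) z ∧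
    fderiv ℝ (fun y => A y / B y) z v =
      (fderiv ℝ A z v * B z - A z * fderiv ℝ B z v) / B z ^ 2 := by
  have h1 : HasDerivAt (fun w : ℂ => w⁻¹) (-(B z ^ 2)⁻¹) (B z) := hasDerivAt_inv h0
  have h2 : HasFDerivAt (fun y => (B y)⁻¹)
      (((ContinuousLinearMap.toSpanSingleton ℂ (-(B z ^ 2)⁻¹)).restrictScalars ℝ).comp
        (fderiv ℝ B z)) z :=
    (h1.hasFDerivAt.restrictScalars ℝ).comp z hB.hasFDerivAt
  have h3 : HasFDerivAt (fun y => A y * (B y)⁻¹) _ z := hA.hasFDerivAt.mul h2
  have h4 : (fun y => A y / B y) = fun y => A y * (B y)⁻¹ := by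
    funext y
    rw [div_eq_mul_inv]
  rw [h4]
  refine ⟨h3.differentiableAt, ?_⟩
  rw [h3.fderiv]
  simp only [add_apply, smul_apply,
    ContinuousLinearMap.comp_apply, ContinuousLinearMap.coe_restrictScalars',
    ContinuousLinearMap.toSpanSingleton_apply, smul_eq_mul]
  field_simp
  ring

theorem X_div {A B : H n → ℂ} {z : H n} (hA : DifferentiableAt ℝ A z)
    (hB : DifferentiableAt ℝ B z) (h0 : B z ≠ 0) (j : Fin n) :
    X (fun y => A y / B y) j z = (X A j z * B z - A z * X B j z) / B z ^ 2 :=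
  (fd_div hA hB h0 _).2

theorem Y_div {A B : H n → ℂ} {z : H n} (hA : DifferentiableAt ℝ A z)
    (hB : DifferentiableAt ℝ B z) (h0 : B z ≠ 0) (j : Fin n) :
    Y (fun y => A y / B y) j z = (Y A j z * B z - A z * Y B j z) / B z ^ 2 :=
  (fd_div hA hB h0 _).2

/-- the numerators -/
noncomputable def nm : Option (Fin n) → H n → ℂ
  | none, z => 2 - nu z
  | some k, z => 2 * zc k z

theorem zz_eq (i : Option (Fin n)) : zz i = fun z : H n => nm i z / nu z := by
  funext z
  rcases i with _ | k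
  · simp only [zz, nm]
    rw [sub_div, div_self (nu_ne z)]
  · rfl

theorem fd_nm_none (z v : H n) : fderiv ℝ (nm none) z v = - fderiv ℝ nu z v := by
  have h : HasFDerivAt (fun z : H n => 2 - nu z) (- fderiv ℝ nu z) z := by
    have := (diff_nu z).hasFDerivAt.const_sub (2 : ℂ)
    exact this
  have h2 : (nm none : H n → ℂ) = fun z => 2 - nu z := rfl
  rw [h2, h.fderiv]
  rfl

theorem fd_nm_some (k : Fin n) (z v : H n) : fderiv ℝ (nm (some k)) z v =
    2 * fderiv ℝ (zc k) z v := by
  have h : HasFDerivAt (fun z : H n => 2 * zc k z) ((2 : ℂ) • fderiv ℝ (zc k) z) z :=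
    (diff_zc k z).hasFDerivAt.const_mul (2 : ℂ)
  have h2 : (nm (some k) : H n → ℂ) = fun z => 2 * zc k z := rfl
  rw [h2, h.fderiv]
  rfl

theorem diff_nm (i : Option (Fin n)) (z : H n) : DifferentiableAt ℝ (nm i) z := by
  rcases i with _ | k
  · exact (diff_nu z).const_sub (2 : ℂ)
  · exact (diff_zc k z).const_mul (2 : ℂ)

theorem X_nm_none (z : H n) (j : Fin n) : X (nm none) j z =
    - (2 * (starRingEnd ℂ) (zc j z)) := by
  rw [← X_nu]
  exact fd_nm_none z _

theorem Y_nm_none (z : H n) (j : Fin n) : Y (nm none) j z =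
    - (Complex.I * (2 * (starRingEnd ℂ) (zc j z))) := by
  rw [← Y_nu]
  exact fd_nm_none z _

theorem X_nm_some (z : H n) (k j : Fin n) : X (nm (some k)) j z =
    2 * if k = j then 1 else 0 := by
  rw [← X_zc z k j]
  exact fd_nm_some k z _

theorem Y_nm_some (z : H n) (k j : Fin n) : Y (nm (some k)) j z =
    2 * (Complex.I * if k = j then 1 else 0) := by
  rw [← Y_zc z k j]
  exact fd_nm_some k z _

theorem X_zz_none (z : H n) (j : Fin n) : X (zz none) j z =
    - (4 * (starRingEnd ℂ) (zc j z)) / nu z ^ 2 := by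
  rw [zz_eq, X_div (diff_nm _ z) (diff_nu z) (nu_ne z), X_nm_none, X_nu]
  simp only [nm]
  ring

theorem X_zz_some (z : H n) (k j : Fin n) : X (zz (some k)) j z =
    ((2 * if k = j then 1 else 0) * nu z - 4 * (zc k z * (starRingEnd ℂ) (zc j z))) /
      nu z ^ 2 := by
  rw [zz_eq, X_div (diff_nm _ z) (diff_nu z) (nu_ne z), X_nm_some, X_nu]
  simp only [nm]
  ring

theorem Y_zz (i : Option (Fin n)) (z : H n) (j : Fin n) : Y (zz i) j z =
    Complex.I * X (zz i) j z := by
  rw [zz_eq, Y_div (diff_nm _ z) (diff_nu z) (nu_ne z),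
    X_div (diff_nm _ z) (diff_nu z) (nu_ne z), X_nu, Y_nu]
  rcases i with _ | k
  · rw [Y_nm_none, X_nm_none]
    ring
  · rw [Y_nm_some, X_nm_some]
    ring

theorem normSq_nu (z : H n) : Complex.normSq (nu z) = ww z := by
  rw [Complex.normSq_apply]
  simp only [nu, ww]
  ring

theorem sum_normSq_zc (z : H n) : ∑ k, Complex.normSq (zc k z) = H93.HQ.sq z := by
  unfold H93.HQ.sq
  rw [EuclideanSpace.norm_sq_eq, EuclideanSpace.norm_sq_eq, ← Finset.sum_add_distrib]
  refine Finset.sum_congr rfl fun k _ => ?_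
  rw [Complex.normSq_apply, Real.norm_eq_abs, Real.norm_eq_abs, sq_abs, sq_abs]
  simp only [zc]
  ring

theorem ww_pos (z : H n) : 0 < ww z := by
  rw [← normSq_nu]
  exact Complex.normSq_pos.2 (nu_ne z)

/-- the sum over `i` -/
theorem sum_X (z : H n) (j : Fin n) :
    ∑ i : Option (Fin n), Complex.normSq (X (zz i) j z) = 4 / ww z := by
  have hw := ww_pos z
  rw [Fintype.sum_option, X_zz_none]
  have h1 : Complex.normSq (-(4 * (starRingEnd ℂ) (zc j z)) / nu z ^ 2) =
      16 * Complex.normSq (zc j z) / ww z ^ 2 := by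
    rw [Complex.normSq_div, Complex.normSq_neg, Complex.normSq_mul, Complex.normSq_conj,
      map_pow, normSq_nu]
    congr 2
    rw [Complex.normSq_apply]
    norm_num
  have h2 : ∀ k : Fin n, Complex.normSq (X (zz (some k)) j z) =
      (if k = j then (4 * ww z - 16 * (1 + H93.HQ.sq z) * Complex.normSq (zc j z)) / ww z ^ 2
        else 0) + 16 * Complex.normSq (zc j z) * Complex.normSq (zc k z) / ww z ^ 2 := by
    intro k
    rw [X_zz_some, Complex.normSq_div, map_pow, normSq_nu]
    by_cases h : k = j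
    · subst h
      simp only [if_true]
      rw [← add_div]
      congr 1
      rw [Complex.mul_conj, ← normSq_nu, Complex.normSq_apply, Complex.normSq_apply (nu z)]
      simp only [Complex.sub_re, Complex.mul_re, Complex.sub_im, Complex.mul_im,
        Complex.ofReal_re, Complex.ofReal_im]
      simp only [nu]
      norm_num
      ring
    · simp only [h, if_false]
      rw [zero_add]
      congr 1
      rw [mul_zero, zero_mul, zero_sub, Complex.normSq_neg, Complex.normSq_mul,
        Complex.normSq_mul, Complex.normSq_conj]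
      have : Complex.normSq (4 : ℂ) = 16 := by
        rw [Complex.normSq_apply]
        norm_num
      rw [this]
      ring
  rw [h1]
  simp only [h2]
  rw [Finset.sum_add_distrib, Finset.sum_ite_eq' Finset.univ j]
  simp only [Finset.mem_univ, if_true]
  rw [← Finset.sum_div, ← Finset.mul_sum, sum_normSq_zc]
  field_simp
  ring

theorem sum_zz (z : H n) :
    ∑ i : Option (Fin n), Complex.normSq (zz i z) = 1 := by
  have hw := ww_pos z
  simp only [zz_eq, Complex.normSq_div, normSq_nu]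
  rw [← Finset.sum_div, div_eq_one_iff_eq hw.ne', Fintype.sum_option]
  have h1 : ∀ k : Fin n, Complex.normSq (nm (some k) z) = 4 * Complex.normSq (zc k z) := by
    intro k
    simp only [nm]
    rw [Complex.normSq_mul]
    congr 1
    rw [Complex.normSq_apply]
    norm_num
  simp only [h1]
  rw [← Finset.mul_sum, sum_normSq_zc, Complex.normSq_apply]
  simp only [nm, nu, ww]
  norm_num
  ring

/-! ### Smoothness -/

theorem cd_mk {f g : H n → ℝ} (hf : ContDiff ℝ ∞ f) (hg : ContDiff ℝ ∞ g) :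
    ContDiff ℝ ∞ (fun y => (⟨f y, g y⟩ : ℂ)) := by
  have h1 : ContDiff ℝ ∞ (fun y => (f y : ℂ)) := Complex.ofRealCLM.contDiff.comp hf
  have h2 : ContDiff ℝ ∞ (fun y => (g y : ℂ)) := Complex.ofRealCLM.contDiff.comp hg
  have h3 : (fun y => (⟨f y, g y⟩ : ℂ)) = fun y => (f y : ℂ) + (g y : ℂ) * Complex.I := by
    funext y
    apply Complex.ext <;> simp
  rw [h3]
  exact h1.add (h2.mul contDiff_const)

theorem cd_nu : ContDiff ℝ ∞ (nu : H n → ℂ) := by
  have h1 : ContDiff ℝ ∞ (fun z : H n => 1 + H93.HQ.sq z) :=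
    contDiff_const.add ((contDiff_fst.norm_sq ℝ).add (contDiff_snd.fst.norm_sq ℝ))
  have h2 : ContDiff ℝ ∞ (fun z : H n => - z.2.2) := contDiff_snd.snd.neg
  exact cd_mk h1 h2

theorem cd_zc (k : Fin n) : ContDiff ℝ ∞ (zc k : H n → ℂ) := by
  have h1 : ContDiff ℝ ∞ (fun z : H n => z.1 k) :=
    ((EuclideanSpace.proj k : V n →L[ℝ] ℝ).comp (L1 n)).contDiff
  have h2 : ContDiff ℝ ∞ (fun z : H n => z.2.1 k) :=
    ((EuclideanSpace.proj k : V n →L[ℝ] ℝ).comp (L2 n)).contDiff
  exact cd_mk h1 h2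

theorem cd_nm (i : Option (Fin n)) : ContDiff ℝ ∞ (nm i : H n → ℂ) := by
  rcases i with _ | k
  · exact contDiff_const.sub cd_nu
  · exact contDiff_const.mul (cd_zc k)

theorem cd_zz (i : Option (Fin n)) : ContDiff ℝ ∞ (zz i : H n → ℂ) := by
  rw [zz_eq]
  have h : (fun z : H n => nm i z / nu z) = fun z => nm i z * (nu z)⁻¹ := by
    funext z
    rw [div_eq_mul_inv]
  rw [h]
  exact (cd_nm i).mul (cd_nu.inv nu_ne)

theorem rz_true (i : Option (Fin n)) : (rz i true : H n → ℝ) = fun z => (zz i z).re := by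
  funext z
  simp [rz]

theorem rz_false (i : Option (Fin n)) : (rz i false : H n → ℝ) = fun z => (zz i z).im := by
  funext z
  simp [rz]

theorem cd_rz (i : Option (Fin n)) (b : Bool) : ContDiff ℝ ∞ (rz i b : H n → ℝ) := by
  cases b
  · rw [rz_false]
    exact Complex.imCLM.contDiff.comp (cd_zz i)
  · rw [rz_true]
    exact Complex.reCLM.contDiff.comp (cd_zz i)

theorem fd_rz_true (i : Option (Fin n)) (z v : H n) : fderiv ℝ (rz i true) z v =
    (fderiv ℝ (zz i) z v).re := by
  have h : HasFDerivAt (fun z : H n => (zz i z).re) (Complex.reCLM.comp (fderiv ℝ (zz i) z)) z :=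
    Complex.reCLM.hasFDerivAt.comp z
      ((cd_zz i).differentiable (by simp) z).hasFDerivAt
  rw [rz_true, h.fderiv]
  rfl

theorem fd_rz_false (i : Option (Fin n)) (z v : H n) : fderiv ℝ (rz i false) z v =
    (fderiv ℝ (zz i) z v).im := by
  have h : HasFDerivAt (fun z : H n => (zz i z).im) (Complex.imCLM.comp (fderiv ℝ (zz i) z)) z :=
    Complex.imCLM.hasFDerivAt.comp z
      ((cd_zz i).differentiable (by simp) z).hasFDerivAt
  rw [rz_false, h.fderiv]
  rfl

theorem sum_rz (z : H n) :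
    ∑ i : Option (Fin n), (rz i true z ^ 2 + rz i false z ^ 2) = 1 := by
  rw [← sum_zz z]
  refine Finset.sum_congr rfl fun i _ => ?_
  rw [rz_true, rz_false, Complex.normSq_apply]
  ring

theorem sum_fd (z v : H n) :
    ∑ i : Option (Fin n), (rz i true z * fderiv ℝ (rz i true) z v +
      rz i false z * fderiv ℝ (rz i false) z v) = 0 := by
  have hd : ∀ i b, HasFDerivAt (rz i b : H n → ℝ) (fderiv ℝ (rz i b) z) z := fun i b =>
    ((cd_rz i b).differentiable (by simp) z).hasFDerivAt
  have h1 : HasFDerivAt (fun y : H n => ∑ i : Option (Fin n),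
      (rz i true y ^ 2 + rz i false y ^ 2)) (∑ i : Option (Fin n),
        ((2 * rz i true z ^ 1) • fderiv ℝ (rz i true) z +
          (2 * rz i false z ^ 1) • fderiv ℝ (rz i false) z)) z := by
    refine HasFDerivAt.fun_sum fun i _ => ?_
    have h2 : HasFDerivAt (fun y : H n => rz i true y ^ 2)
        ((2 * rz i true z ^ 1) • fderiv ℝ (rz i true) z) z := by
      simpa using (hd i true).pow 2
    have h3 : HasFDerivAt (fun y : H n => rz i false y ^ 2)
        ((2 * rz i false z ^ 1) • fderiv ℝ (rz i false) z) z := by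
      simpa using (hd i false).pow 2
    exact h2.add h3
  have h2 : (fun y : H n => ∑ i : Option (Fin n), (rz i true y ^ 2 + rz i false y ^ 2)) =
      fun _ => (1 : ℝ) := funext sum_rz
  rw [h2] at h1
  have h3 := h1.unique (hasFDerivAt_const (1 : ℝ) z)
  have h4 := congrArg (fun L : H n →L[ℝ] ℝ => L v) h3
  simp only [sum_apply, add_apply, smul_apply, smul_eq_mul, pow_one] at h4
  have h5 : ∑ i : Option (Fin n), (2 * rz i true z * fderiv ℝ (rz i true) z v +
      2 * rz i false z * fderiv ℝ (rz i false) z v) =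
      2 * ∑ i : Option (Fin n), (rz i true z * fderiv ℝ (rz i true) z v +
      rz i false z * fderiv ℝ (rz i false) z v) := by
    rw [Finset.mul_sum]
    refine Finset.sum_congr rfl fun i _ => ?_
    ring
  rw [h5] at h4
  have h6 : (2 : ℝ) * ∑ i : Option (Fin n), (rz i true z * fderiv ℝ (rz i true) z v +
      rz i false z * fderiv ℝ (rz i false) z v) = 0 := h4
  linarith

theorem norm_hg (u : H n → ℝ) (z : H n) : ‖hg u z‖ ^ 2 = ∑ j, (X u j z ^ 2 + Y u j z ^ 2) := by
  rw [EuclideanSpace.norm_sq_eq, Fintype.sum_sum_type, ← Finset.sum_add_distrib]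
  refine Finset.sum_congr rfl fun j _ => ?_
  rw [Real.norm_eq_abs, Real.norm_eq_abs, sq_abs, sq_abs]
  rfl

end ZID

open ZID in
/-- ZID. -/
theorem pf_ZID (hHGA : T_HGA) : T_ZID := by
  intro n hn
  refine ⟨cd_rz, ?_, sum_rz, ?_, ?_⟩
  · intro i b z
    have h1 : rz i true z ^ 2 + rz i false z ^ 2 ≤ 1 := by
      rw [← sum_rz z]
      exact Finset.single_le_sum (f := fun i => rz i true z ^ 2 + rz i false z ^ 2)
        (fun _ _ => by positivity) (Finset.mem_univ i)
    have h2 : rz i b z ^ 2 ≤ 1 := by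
      cases b
      · nlinarith [sq_nonneg (rz i true z)]
      · nlinarith [sq_nonneg (rz i false z)]
    exact abs_le_one_iff_mul_self_le_one.2 (by nlinarith)
  · intro z
    ext l
    rcases l with j | j
    · have h := sum_fd z (EuclideanSpace.single j (1 : ℝ), 0, 2 * z.2.1 j)
      rw [PiLp.zero_apply, ← h]
      simp only [WithLp.ofLp_sum, Finset.sum_apply]
      rfl
    · have h := sum_fd z (0, EuclideanSpace.single j (1 : ℝ), -2 * z.1 j)
      rw [PiLp.zero_apply, ← h]
      simp only [WithLp.ofLp_sum, Finset.sum_apply]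
      rfl
  · intro z
    have h1 : ∀ i : Option (Fin n), ‖hg (rz i true) z‖ ^ 2 + ‖hg (rz i false) z‖ ^ 2 =
        ∑ j, 2 * Complex.normSq (X (zz i) j z) := by
      intro i
      rw [norm_hg, norm_hg, ← Finset.sum_add_distrib]
      refine Finset.sum_congr rfl fun j _ => ?_
      have h2 : X (rz i true) j z = (X (zz i) j z).re := fd_rz_true i z _
      have h3 : X (rz i false) j z = (X (zz i) j z).im := fd_rz_false i z _
      have h4 : Y (rz i true) j z = (Y (zz i) j z).re := fd_rz_true i z _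
      have h5 : Y (rz i false) j z = (Y (zz i) j z).im := fd_rz_false i z _
      rw [h2, h3, h4, h5, Y_zz, Complex.normSq_apply]
      simp only [Complex.mul_re, Complex.mul_im, Complex.I_re, Complex.I_im]
      ring
    simp only [h1]
    rw [Finset.sum_comm]
    simp only [← Finset.mul_sum, sum_X]
    rw [Finset.sum_const, Finset.card_univ, Fintype.card_fin]
    simp only [nsmul_eq_mul]
    ring

end Pool.Agent.H54.HB
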