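import Pool.Agent.H27.HB.TA
import Pool.Agent.H27.HB.TG
import Pool.Agent.H54.HB.ZID
import Pool.Agent.H54.HB.Tools

/-!
# HB board, module NQ: the normalised difference of two extremals
-/

set_option autoImplicit false

namespace Pool.Agent.H54.HB
open MeasureTheory Set Filter Topology Pool.Agent.H80.HS Pool.Agent.H93.HQ Pool.Agent.H27.HB
open scoped ContDiff ENNReal

namespace NQ

open Tools

variable {n : ℕ}

/-- Hoelder's inequality for the difference of the gradients -/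
theorem hoe {p : ℝ} (hp1 : 1 < p) (hp2 : p < 2) {g h : H n → G n}
    (hg : MemLp g (ENNReal.ofReal p)) (hh : MemLp h (ENNReal.ofReal p))
    (hi : Integrable (fun z => (‖g z‖ + ‖h z‖) ^ (p - 2) * ‖g z - h z‖ ^ 2)) :
    ∫ z, ‖g z - h z‖ ^ p ≤ (∫ z, (‖g z‖ + ‖h z‖) ^ (p - 2) * ‖g z - h z‖ ^ 2) ^ (p / 2) *
      (2 ^ (p - 1) * (en p g + en p h)) ^ ((2 - p) / 2) := by
  have hp0 : 0 < p := by linarith
  have h1 := int_rpow hp0 hg
  have h2 := int_rpow hp0 hh
  have hM : AEStronglyMeasurable (fun z => (‖g z‖ + ‖h z‖) ^ p) volume :=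
    ((hg.1.norm.aemeasurable.add hh.1.norm.aemeasurable).pow_const p).aestronglyMeasurable
  have hle : ∀ z, (‖g z‖ + ‖h z‖) ^ p ≤ 2 ^ (p - 1) * (‖g z‖ ^ p + ‖h z‖ ^ p) := fun z =>
    add_rpow_le hp1.le (norm_nonneg _) (norm_nonneg _)
  have hMi : Integrable (fun z => (‖g z‖ + ‖h z‖) ^ p) := by
    refine ((h1.add h2).const_mul (2 ^ (p - 1))).mono' hM (Eventually.of_forall fun z => ?_)
    rw [Real.norm_of_nonneg (by positivity)]
    exact hle z
  have h3 := holder (a := p / 2) (b := (2 - p) / 2) (by linarith) (by linarith) (by ring)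
    hi hMi (fun z => by positivity) (fun z => by positivity)
  have h4 : ∀ z, ((‖g z‖ + ‖h z‖) ^ (p - 2) * ‖g z - h z‖ ^ 2) ^ (p / 2) *
      ((‖g z‖ + ‖h z‖) ^ p) ^ ((2 - p) / 2) = ‖g z - h z‖ ^ p := by
    intro z
    rcases eq_or_lt_of_le (by positivity : 0 ≤ ‖g z‖ + ‖h z‖) with h0 | h0
    · have hg0 : ‖g z‖ = 0 := by linarith [norm_nonneg (g z), norm_nonneg (h z)]
      have hh0 : ‖h z‖ = 0 := by linarith [norm_nonneg (g z), norm_nonneg (h z)]
      rw [norm_eq_zero] at hg0 hh0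
      rw [hg0, hh0]
      simp only [sub_zero, norm_zero, add_zero]
      rw [Real.zero_rpow hp0.ne', Real.zero_rpow (by linarith : (2 - p) / 2 ≠ 0), mul_zero]
    · rw [Real.mul_rpow (by positivity) (by positivity), ← Real.rpow_natCast,
        ← Real.rpow_mul (norm_nonneg (g z - h z)), ← Real.rpow_mul h0.le,
        ← Real.rpow_mul h0.le]
      have e1 : (((2 : ℕ) : ℝ) * (p / 2)) = p := by push_cast; ring
      have e2 : p * ((2 - p) / 2) = -((p - 2) * (p / 2)) := by ring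
      rw [e1, e2, Real.rpow_neg h0.le]
      have e3 : (‖g z‖ + ‖h z‖) ^ ((p - 2) * (p / 2)) ≠ 0 := (Real.rpow_pos_of_pos h0 _).ne'
      field_simp
  simp only [h4] at h3
  refine h3.trans ?_
  have h5 : 0 ≤ ∫ z, (‖g z‖ + ‖h z‖) ^ (p - 2) * ‖g z - h z‖ ^ 2 :=
    integral_nonneg fun z => by positivity
  refine mul_le_mul_of_nonneg_left ?_ (Real.rpow_nonneg h5 _)
  refine Real.rpow_le_rpow (integral_nonneg fun z => by positivity) ?_ (by linarith)
  unfold en
  rw [← integral_add h1 h2, ← integral_const_mul]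
  exact integral_mono hMi ((h1.add h2).const_mul _) hle

theorem abs_rz_le (i : Option (Fin n)) (b : Bool) (z : H n) : |rz i b z| ≤ 1 := by
  have h1 : rz i true z ^ 2 + rz i false z ^ 2 ≤ 1 := by
    rw [← ZID.sum_rz z]
    exact Finset.single_le_sum (f := fun i => rz i true z ^ 2 + rz i false z ^ 2)
      (fun _ _ => by positivity) (Finset.mem_univ i)
  have h2 : rz i b z ^ 2 ≤ 1 := by
    cases b
    · nlinarith [sq_nonneg (rz i true z)]
    · nlinarith [sq_nonneg (rz i false z)]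
  exact abs_le_one_iff_mul_self_le_one.2 (by nlinarith)

end NQ

open NQ Tools in
/-- NQ. -/
theorem pf_NQ (hDIF : T_DIF) (hCLA : T_CLA) (hSOB : T_SOB) (hBQE : T_BQE) : T_NQ := by
  intro n hn p S hp1 hp2 hq hS u v g h hu hv hu0 hv0 hcu hcv hne
  obtain ⟨hi1, hi2, hmain⟩ := hDIF n hn p S hp1 hp2 hq hS u v g h hu hv hu0 hv0
  have hp0 : 0 < p := by linarith
  have hn1 : (1 : ℝ) ≤ n := by exact_mod_cast hn
  have hpQ : p < 2 * n + 2 := by linarith
  have hS0 : 0 < S := hS.1
  have hq0 : 0 < ps n p := by linarith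
  have hth : 0 < th n p := by
    unfold th
    exact div_pos (by linarith) (by linarith)
  have hgm : MemLp g (ENNReal.ofReal p) := hu.1.2.1
  have hhm : MemLp h (ENNReal.ofReal p) := hv.1.2.1
  have hum : MemLp u (ENNReal.ofReal (ps n p)) := hu.1.1
  have hvm : MemLp v (ENNReal.ofReal (ps n p)) := hv.1.1
  set N2 := ∫ z, (‖g z‖ + ‖h z‖) ^ (p - 2) * ‖g z - h z‖ ^ 2 with hN2
  -- positivity
  have hN2pos : 0 < N2 := by
    have h0 : 0 ≤ N2 := integral_nonneg fun z => by positivity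
    rcases eq_or_lt_of_le h0 with h1 | h1
    swap
    · exact h1
    exfalso
    have h2 := (integral_eq_zero_iff_of_nonneg (fun z => by positivity) hi1).1 h1.symm
    have h3 : ∀ᵐ z, g z = h z := by
      filter_upwards [h2] with z hz
      have hz' : (‖g z‖ + ‖h z‖) ^ (p - 2) * ‖g z - h z‖ ^ 2 = 0 := hz
      rcases eq_or_lt_of_le (by positivity : 0 ≤ ‖g z‖ + ‖h z‖) with h4 | h4
      · have hg0 : ‖g z‖ = 0 := by linarith [norm_nonneg (g z), norm_nonneg (h z)]
        have hh0 : ‖h z‖ = 0 := by linarith [norm_nonneg (g z), norm_nonneg (h z)]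
        rw [norm_eq_zero] at hg0 hh0
        rw [hg0, hh0]
      · rcases mul_eq_zero.1 hz' with h5 | h5
        · exact absurd h5 (Real.rpow_pos_of_pos h4 _).ne'
        · have h6 : ‖g z - h z‖ = 0 := by simpa using h5
          exact sub_eq_zero.1 (norm_eq_zero.1 h6)
    have h4 := hCLA n hn p hp1 hpQ u v g h 1 (-1) hu.1 hv.1
    have h5 := hSOB n hn p S hp1 hpQ hS _ _ h4
    have h6 : en p (fun z => (1 : ℝ) • g z + (-1 : ℝ) • h z) = 0 := by
      unfold en
      rw [integral_eq_zero_of_ae]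
      filter_upwards [h3] with z hz
      rw [hz]
      simp [Real.zero_rpow hp0.ne']
    rw [h6] at h5
    have h7 : 0 ≤ ms (ps n p) (fun z => 1 * u z + -1 * v z) :=
      integral_nonneg fun z => by positivity
    have h8 : ms (ps n p) (fun z => 1 * u z + -1 * v z) ^ th n p = 0 := by
      have h9 := Real.rpow_nonneg h7 (th n p)
      nlinarith
    have h10 : ms (ps n p) (fun z => 1 * u z + -1 * v z) = 0 :=
      (Real.rpow_eq_zero h7 hth.ne').1 h8
    have h11 : Integrable (fun z => |1 * u z + -1 * v z| ^ ps n p) :=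
      int_rpow hq0 h4.1
    have h12 := (integral_eq_zero_iff_of_nonneg (fun z => by positivity) h11).1 h10
    apply hne
    filter_upwards [h12] with z hz
    have hz' : |1 * u z + -1 * v z| ^ ps n p = 0 := hz
    have h13 := (Real.rpow_eq_zero (abs_nonneg _) hq0.ne').1 hz'
    have h14 := abs_eq_zero.1 h13
    linarith
  set nn := Real.sqrt N2 with hnn
  have hnn0 : 0 < nn := Real.sqrt_pos.2 hN2pos
  have hnnsq : nn ^ 2 = N2 := Real.sq_sqrt hN2pos.le
  refine ⟨fun z => nn⁻¹ * u z + (-nn⁻¹) * v z, fun z => nn⁻¹ • g z + (-nn⁻¹) • h z,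
    hCLA n hn p hp1 hpQ u v g h _ _ hu.1 hv.1, ?_, ?_, ?_, ?_⟩
  · -- the energy
    have h1 : ∀ z, nn⁻¹ • g z + (-nn⁻¹) • h z = nn⁻¹ • (g z - h z) := by
      intro z
      rw [neg_smul, smul_sub, sub_eq_add_neg]
    have h2 : en p (fun z => nn⁻¹ • g z + (-nn⁻¹) • h z) =
        nn⁻¹ ^ p * ∫ z, ‖g z - h z‖ ^ p := by
      unfold en
      rw [← integral_const_mul]
      refine integral_congr_ae (Eventually.of_forall fun z => ?_)
      show ‖nn⁻¹ • g z + (-nn⁻¹) • h z‖ ^ p = nn⁻¹ ^ p * ‖g z - h z‖ ^ p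
      rw [h1, norm_smul, Real.norm_of_nonneg (by positivity : 0 ≤ nn⁻¹),
        Real.mul_rpow (by positivity) (norm_nonneg _)]
    rw [h2]
    have h3 := hoe hp1 hp2 hgm hhm hi1
    rw [← hN2, hu.2.2, hv.2.2] at h3
    have h4 : (2 : ℝ) ^ (p - 1) * (S + S) = 2 ^ p * S := by
      rw [Real.rpow_sub_one (by norm_num)]
      ring
    rw [h4] at h3
    have h5 : nn⁻¹ ^ p * N2 ^ (p / 2) = 1 := by
      rw [← hnnsq, ← Real.rpow_natCast, ← Real.rpow_mul hnn0.le, Real.inv_rpow hnn0.le]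
      have e1 : (((2 : ℕ) : ℝ) * (p / 2)) = p := by push_cast; ring
      rw [e1]
      exact inv_mul_cancel₀ (Real.rpow_pos_of_pos hnn0 _).ne'
    calc nn⁻¹ ^ p * ∫ z, ‖g z - h z‖ ^ p
        ≤ nn⁻¹ ^ p * (N2 ^ (p / 2) * (2 ^ p * S) ^ ((2 - p) / 2)) :=
          mul_le_mul_of_nonneg_left h3 (by positivity)
      _ = (2 ^ p * S) ^ ((2 - p) / 2) := by rw [← mul_assoc, h5, one_mul]
  · -- the main inequality
    have h1 : ∫ z, bq (ps n p) (u z) (v z) * (nn⁻¹ * u z + (-nn⁻¹) * v z) ^ 2 =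
        N2⁻¹ * ∫ z, bq (ps n p) (u z) (v z) * (u z - v z) ^ 2 := by
      rw [← integral_const_mul]
      refine integral_congr_ae (Eventually.of_forall fun z => ?_)
      show bq (ps n p) (u z) (v z) * (nn⁻¹ * u z + (-nn⁻¹) * v z) ^ 2 =
        N2⁻¹ * (bq (ps n p) (u z) (v z) * (u z - v z) ^ 2)
      rw [← hnnsq]
      field_simp
      ring
    rw [h1]
    have h2 : p - 1 = N2⁻¹ * ((p - 1) * N2) := by
      field_simp
    rw [h2]
    calc N2⁻¹ * ((p - 1) * N2)
        ≤ N2⁻¹ * (S * (ps n p - 1) * ∫ z, bq (ps n p) (u z) (v z) * (u z - v z) ^ 2) :=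
          mul_le_mul_of_nonneg_left hmain (by positivity)
      _ = _ := by ring
  · -- orthogonality
    have h1 : ∀ᵐ z, cq (ps n p) (u z) (v z) * (nn⁻¹ * u z + (-nn⁻¹) * v z) =
        (nn⁻¹ * (ps n p)⁻¹) * (|u z| ^ ps n p - |v z| ^ ps n p) := by
      filter_upwards [hu0, hv0] with z h2 h3
      have h4 := (hBQE.1 (ps n p) (u z) (v z) hq h2 h3).2.1
      rw [abs_of_nonneg h2, abs_of_nonneg h3, h4]
      field_simp
      ring
    have hiu : Integrable (fun z => |u z| ^ ps n p) := int_rpow hq0 hum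
    have hiv : Integrable (fun z => |v z| ^ ps n p) := int_rpow hq0 hvm
    rw [integral_congr_ae h1, integral_const_mul, integral_sub hiu hiv]
    have h2 : ∫ z, |u z| ^ ps n p = 1 := hu.2.1
    have h3 : ∫ z, |v z| ^ ps n p = 1 := hv.2.1
    rw [h2, h3]
    ring
  · -- centring
    intro i b
    have h1 : ∀ᵐ z, cq (ps n p) (u z) (v z) * (nn⁻¹ * u z + (-nn⁻¹) * v z) * rz i b z =
        (nn⁻¹ * (ps n p)⁻¹) * (|u z| ^ ps n p * rz i b z - |v z| ^ ps n p * rz i b z) := by
      filter_upwards [hu0, hv0] with z h2 h3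
      have h4 := (hBQE.1 (ps n p) (u z) (v z) hq h2 h3).2.1
      rw [← sub_mul, abs_of_nonneg h2, abs_of_nonneg h3, h4]
      field_simp
      ring
    have hrm : AEStronglyMeasurable (rz i b : H n → ℝ) volume :=
      (ZID.cd_rz i b).continuous.aestronglyMeasurable
    have hri : ∀ w : H n → ℝ, MemLp w (ENNReal.ofReal (ps n p)) →
        Integrable (fun z => |w z| ^ ps n p * rz i b z) := by
      intro w hw
      refine (int_rpow hq0 hw).mul_bdd (c := 1) hrm (Eventually.of_forall fun z => ?_)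
      exact abs_rz_le i b z
    rw [integral_congr_ae h1, integral_const_mul, integral_sub (hri u hum) (hri v hvm)]
    have h2 : ∫ z, |u z| ^ ps n p * rz i b z = 0 := hcu i b
    have h3 : ∫ z, |v z| ^ ps n p * rz i b z = 0 := hcv i b
    rw [h2, h3]
    ring

end Pool.Agent.H54.HB
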