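import Pool.Agent.H27.HB.TA
import Pool.Agent.H27.HB.TF
import Pool.Agent.H54.HB.ZID
import Pool.Agent.H54.HB.Tools

/-!
# HB board, module SGP: the spectral gap
-/

set_option autoImplicit false

namespace Pool.Agent.H54.HB
open MeasureTheory Set Filter Topology Pool.Agent.H80.HS Pool.Agent.H93.HQ Pool.Agent.H27.HB
open scoped ContDiff ENNReal

namespace SGP

open Tools

variable {n : ℕ}

theorem cont_u0 : Continuous (u0 n : H n → ℝ) := by
  have h1 : Continuous (ww : H n → ℝ) := by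
    have h2 : (ww : H n → ℝ) = fun z => Complex.normSq (nu z) :=
      funext fun z => (ZID.normSq_nu z).symm
    rw [h2]
    exact Complex.continuous_normSq.comp ZID.cd_nu.continuous
  exact h1.rpow_const fun z => Or.inl (ZID.ww_pos z).ne'

theorem cont_ub : Continuous (ub n : H n → ℝ) := continuous_const.mul cont_u0

/-- the weighted Cauchy-Schwarz inequality against a function of norm one -/
theorem cs {κ w f : H n → ℝ} (hκ : ∀ z, 0 ≤ κ z)
    (hw : Integrable (fun z => κ z * w z ^ 2)) (hw1 : ∫ z, κ z * w z ^ 2 = 1)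
    (hf : Integrable (fun z => κ z * f z ^ 2)) (hwf : Integrable (fun z => κ z * w z * f z)) :
    (∫ z, κ z * w z * f z) ^ 2 ≤ ∫ z, κ z * f z ^ 2 := by
  set c := ∫ z, κ z * w z * f z with hc
  have h1 : 0 ≤ ∫ z, κ z * (f z - c * w z) ^ 2 :=
    integral_nonneg fun z => mul_nonneg (hκ z) (sq_nonneg _)
  have h2 : ∀ z, κ z * (f z - c * w z) ^ 2 =
      κ z * f z ^ 2 + ((-2 * c) * (κ z * w z * f z) + c ^ 2 * (κ z * w z ^ 2)) := by
    intro z
    ring
  have i1 : Integrable (fun z => (-2 * c) * (κ z * w z * f z)) := hwf.const_mul _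
  have i2 : Integrable (fun z => c ^ 2 * (κ z * w z ^ 2)) := hw.const_mul _
  have i3 : Integrable (fun z => (-2 * c) * (κ z * w z * f z) + c ^ 2 * (κ z * w z ^ 2)) :=
    i1.add i2
  simp only [h2] at h1
  rw [integral_add hf i3, integral_add i1 i2, integral_const_mul, integral_const_mul,
    hw1, ← hc] at h1
  nlinarith

end SGP

open SGP Tools in
/-- SGP. -/
theorem pf_SGP (hSV2 : T_SV2) (hU0X : T_U0X) (hCLA : T_CLA) (hCLT : T_CLT) (hGSI : T_GSI)
    (hLPN : T_LPN) (hHGA : T_HGA) : T_SGP := by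
  intro n hn S hS f h hf h0
  obtain ⟨hE, hpos, hk, -⟩ := hU0X n hn S hS
  have hS0 : 0 < S := hS.1
  have hn1 : (1 : ℝ) ≤ n := by exact_mod_cast hn
  have hq2 : 2 < ps n 2 := by
    unfold ps
    rw [lt_div_iff₀ (by linarith)]
    linarith
  set q := ps n 2 with hq
  have hQ : (2 : ℝ) < 2 * n + 2 := by linarith
  -- the weight
  obtain ⟨κ, hκ⟩ : ∃ κ : H n → ℝ, κ = fun z => ub n z ^ (q - 2) := ⟨_, rfl⟩
  have hκ' : ∀ z, ub n z ^ (q - 2) = κ z := fun z => by rw [hκ]
  have hκ0 : ∀ z, 0 < κ z := fun z => by rw [← hκ']; exact Real.rpow_pos_of_pos (hpos z) _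
  have e1 : ∀ z, ub n z ^ (q - 1) = κ z * ub n z := by
    intro z
    rw [← hκ', ← Real.rpow_add_one (hpos z).ne']
    congr 1
    ring
  have e2 : ∀ z, |ub n z| ^ q = κ z * ub n z ^ 2 := by
    intro z
    rw [abs_of_pos (hpos z), ← hκ', ← Real.rpow_natCast, ← Real.rpow_add (hpos z)]
    congr 1
    push_cast
    ring
  have hκm : Measurable κ := by
    rw [hκ]
    exact (cont_ub.measurable).pow_const _
  have gs : ∀ (f : H n → ℝ) (h : H n → G n), Cl 2 f h →
      Integrable (fun z => κ z * f z ^ 2) ∧ S * ∫ z, κ z * f z ^ 2 ≤ en 2 h := by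
    intro f h hf
    obtain ⟨h1, h2⟩ := hGSI n hn f h hf
    have h3 : ∀ z, κ z * f z ^ 2 = (4 * (n : ℝ) ^ 2 / S) * (f z ^ 2 / ww z) := by
      intro z
      have h4 := hk z
      rw [hκ'] at h4
      have h5 : κ z = 4 * (n : ℝ) ^ 2 / ww z / S := by
        rw [← h4]
        field_simp
      rw [h5]
      ring
    refine ⟨(h1.const_mul (4 * (n : ℝ) ^ 2 / S)).congr
      (Eventually.of_forall fun z => (h3 z).symm), ?_⟩
    simp only [h3]
    rw [integral_const_mul, ← mul_assoc, mul_div_cancel₀ _ hS0.ne']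
    exact h2
  have hub1 : ∫ z, κ z * ub n z ^ 2 = 1 := by
    rw [← hE.2.1]
    unfold ms
    simp only [← hq, e2]
  have hubi : Integrable (fun z => κ z * ub n z ^ 2) := (gs _ _ hE.1).1
  have hci : ∀ (f : H n → ℝ) (h : H n → G n), Cl 2 f h →
      Integrable (fun z => κ z * ub n z * f z) := by
    intro f h hf
    refine (hubi.add (gs f h hf).1).mono' ?_ (Eventually.of_forall fun z => ?_)
    · exact ((hκm.mul cont_ub.measurable).aestronglyMeasurable).mul hf.1.1
    · show ‖κ z * ub n z * f z‖ ≤ κ z * ub n z ^ 2 + κ z * f z ^ 2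
      rw [Real.norm_eq_abs, abs_mul, abs_mul, abs_of_pos (hκ0 z), abs_of_pos (hpos z)]
      have h1 : ub n z * |f z| ≤ ub n z ^ 2 + f z ^ 2 := by
        nlinarith [sq_nonneg (ub n z - |f z|), sq_abs (f z), sq_nonneg (ub n z), sq_nonneg (f z)]
      nlinarith [hκ0 z, mul_le_mul_of_nonneg_left h1 (hκ0 z).le]
  have hcs : ∀ (f : H n → ℝ) (h : H n → G n), Cl 2 f h →
      (∫ z, κ z * ub n z * f z) ^ 2 ≤ ∫ z, κ z * f z ^ 2 := fun f h hf =>
    cs (fun z => (hκ0 z).le) hubi hub1 (gs f h hf).1 (hci f h hf)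
  simp only [e1] at h0
  simp only [hκ']
  refine ⟨(gs f h hf).1, ?_⟩
  -- the energy
  have hen : ∀ k : H n → G n, en 2 k = ∫ z, ‖k z‖ ^ 2 := by
    intro k
    unfold en
    refine integral_congr_ae (Eventually.of_forall fun z => ?_)
    exact Real.rpow_two _
  have hgi : ∀ (f : H n → ℝ) (h : H n → G n), Cl 2 f h → Integrable (fun z => ‖h z‖ ^ 2) := by
    intro f h hf
    refine (int_rpow (p := 2) two_pos hf.2.1).congr (Eventually.of_forall fun z => ?_)
    exact Real.rpow_two _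
  obtain ⟨φ, hφ, -, hφe⟩ := hf.2.2
  have hφc : ∀ k, Cl 2 (φ k) (hg (φ k)) := fun k => hCLT n hn 2 one_lt_two hQ (φ k) (hφ k)
  -- the main inequality for each `k`
  have main : ∀ k : ℕ, ∀ t : ℝ, 0 < t → S * (q - 1) * ∫ z, κ z * f z ^ 2 ≤
      (1 + t) * ((1 + t) * en 2 h + (1 + 1 / t) * (4 * en 2 (fun z => hg (φ k) z - h z))) +
      (1 + 1 / t) * ((q - 1) * (4 * en 2 (fun z => hg (φ k) z - h z))) := by
    intro k t ht
    set ε := en 2 (fun z => hg (φ k) z - h z) with hε
    have hd : Cl 2 (fun z => 1 * φ k z + -1 * f z) (fun z => (1 : ℝ) • hg (φ k) z + (-1 : ℝ) • h z) :=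
      hCLA n hn 2 one_lt_two hQ _ _ _ _ 1 (-1) (hφc k) hf
    have hdε : en 2 (fun z => (1 : ℝ) • hg (φ k) z + (-1 : ℝ) • h z) = ε := by
      rw [hε]
      congr 1
      funext z
      rw [one_smul, neg_one_smul, sub_eq_add_neg]
    set c := ∫ z, κ z * ub n z * φ k z with hc
    have hc1 : c = ∫ z, κ z * ub n z * (1 * φ k z + -1 * f z) := by
      have h1 : ∀ z, κ z * ub n z * (1 * φ k z + -1 * f z) =
          κ z * ub n z * φ k z - κ z * ub n z * f z := by
        intro z
        ring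
      simp only [h1]
      rw [integral_sub (hci _ _ (hφc k)) (hci _ _ hf), h0, ← hc, sub_zero]
    have hε0 : 0 ≤ ε := integral_nonneg fun z => by positivity
    have hcε : S * c ^ 2 ≤ ε := by
      have h1 := hcs _ _ hd
      rw [← hc1] at h1
      have h2 := (gs _ _ hd).2
      rw [hdε] at h2
      nlinarith
    -- the corrected functions
    have hψ : Cl 2 (fun z => 1 * φ k z + -c * ub n z)
        (fun z => (1 : ℝ) • hg (φ k) z + (-c) • hg (ub n) z) :=
      hCLA n hn 2 one_lt_two hQ _ _ _ _ 1 (-c) (hφc k) hE.1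
    -- the second variation
    have hsv : S * (q - 1) * ∫ z, κ z * (1 * φ k z + -c * ub n z) ^ 2 ≤
        en 2 (fun z => (1 : ℝ) • hg (φ k) z + (-c) • hg (ub n) z) := by
      obtain ⟨B, hB⟩ : ∃ B : ℝ, ∀ z, ‖φ k z / ub n z‖ ≤ B := by
        have hcont : Continuous (fun z => φ k z / ub n z) :=
          (hφ k).1.continuous.div cont_ub fun z => (hpos z).ne'
        have hcs : HasCompactSupport (fun z => φ k z / ub n z) := by
          have h1 : (fun z => φ k z / ub n z) = fun z => φ k z * (ub n z)⁻¹ := by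
            funext z
            rw [div_eq_mul_inv]
          rw [h1]
          exact (hφ k).2.mul_right
        exact hcs.exists_bound_of_continuous hcont
      have h1 : ∀ z, (φ k z / ub n z - c) * ub n z = 1 * φ k z + -c * ub n z := by
        intro z
        have := (hpos z).ne'
        field_simp
        ring
      have h2 := hSV2 n hn S hS (ub n) (hg (ub n)) hE (fun z => φ k z / ub n z - c)
        (fun z => (1 : ℝ) • hg (φ k) z + (-c) • hg (ub n) z) (B + |c|) ?_ ?_ ?_ ?_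
      · rw [← hq] at h2
        have h3 : ∀ z, |ub n z| ^ q * (φ k z / ub n z - c) ^ 2 =
            κ z * (1 * φ k z + -c * ub n z) ^ 2 := by
          intro z
          rw [e2, ← h1]
          ring
        simp only [h3] at h2
        exact h2
      · exact (((hφ k).1.continuous.measurable).div cont_ub.measurable).sub_const c
      · intro z
        calc |φ k z / ub n z - c| ≤ |φ k z / ub n z| + |c| := abs_sub _ _
          _ ≤ B + |c| := by
            have := hB z
            rw [Real.norm_eq_abs] at this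
            linarith
      · simp only [h1]
        exact hψ
      · have h3 : ∀ z, |ub n z| ^ ps n 2 * (φ k z / ub n z - c) =
            κ z * ub n z * φ k z - c * (κ z * ub n z ^ 2) := by
          intro z
          rw [← hq, e2]
          have := (hpos z).ne'
          field_simp
        simp only [h3]
        rw [integral_sub (hci _ _ (hφc k)) (hubi.const_mul c), integral_const_mul, hub1, ← hc]
        ring
    -- the difference between `f` and the corrected functions
    have hr : Cl 2 (fun z => 1 * f z + -1 * (1 * φ k z + -c * ub n z))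
        (fun z => (1 : ℝ) • h z + (-1 : ℝ) • ((1 : ℝ) • hg (φ k) z + (-c) • hg (ub n) z)) :=
      hCLA n hn 2 one_lt_two hQ _ _ _ _ 1 (-1) hf hψ
    have hrε : en 2 (fun z => (1 : ℝ) • h z +
        (-1 : ℝ) • ((1 : ℝ) • hg (φ k) z + (-c) • hg (ub n) z)) ≤ 4 * ε := by
      have h1 : ∀ z, ‖(1 : ℝ) • h z + (-1 : ℝ) • ((1 : ℝ) • hg (φ k) z + (-c) • hg (ub n) z)‖ ^ 2 ≤
          2 * ‖hg (φ k) z - h z‖ ^ 2 + 2 * c ^ 2 * ‖hg (ub n) z‖ ^ 2 := by
        intro z
        have h2 : (1 : ℝ) • h z + (-1 : ℝ) • ((1 : ℝ) • hg (φ k) z + (-c) • hg (ub n) z) =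
            c • hg (ub n) z - (hg (φ k) z - h z) := by
          module
        rw [h2]
        have h3 : ‖c • hg (ub n) z - (hg (φ k) z - h z)‖ ≤ |c| * ‖hg (ub n) z‖ +
            ‖hg (φ k) z - h z‖ := by
          refine (norm_sub_le _ _).trans ?_
          rw [norm_smul, Real.norm_eq_abs]
        have h4 : ‖c • hg (ub n) z - (hg (φ k) z - h z)‖ ^ 2 ≤ (|c| * ‖hg (ub n) z‖ +
            ‖hg (φ k) z - h z‖) ^ 2 := pow_le_pow_left₀ (norm_nonneg _) h3 2
        nlinarith [sq_nonneg (|c| * ‖hg (ub n) z‖ - ‖hg (φ k) z - h z‖), sq_abs c]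
      have h5 : Integrable (fun z => ‖hg (φ k) z - h z‖ ^ 2) := by
        refine (hgi _ _ hd).congr (Eventually.of_forall fun z => ?_)
        show ‖(1 : ℝ) • hg (φ k) z + (-1 : ℝ) • h z‖ ^ 2 = ‖hg (φ k) z - h z‖ ^ 2
        rw [one_smul, neg_one_smul, sub_eq_add_neg]
      have h6 : Integrable (fun z => ‖hg (ub n) z‖ ^ 2) := hgi _ _ hE.1
      rw [hen]
      refine (integral_mono (hgi _ _ hr) ((h5.const_mul 2).add (h6.const_mul (2 * c ^ 2)))
        h1).trans ?_
      have h7 : ∫ z, (2 * ‖hg (φ k) z - h z‖ ^ 2 + 2 * c ^ 2 * ‖hg (ub n) z‖ ^ 2) =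
          2 * ε + 2 * c ^ 2 * S := by
        rw [integral_add (h5.const_mul 2) (h6.const_mul (2 * c ^ 2)), integral_const_mul,
          integral_const_mul, ← hen, ← hen, hE.2.2]
      have h8 : 2 * ε + 2 * c ^ 2 * S ≤ 4 * ε := by nlinarith
      exact h7.le.trans h8
    have hA : ∫ z, κ z * f z ^ 2 ≤ (1 + t) * (∫ z, κ z * (1 * φ k z + -c * ub n z) ^ 2) +
        (1 + 1 / t) * ∫ z, κ z * (1 * f z + -1 * (1 * φ k z + -c * ub n z)) ^ 2 := by
      rw [← integral_const_mul, ← integral_const_mul,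
        ← integral_add ((gs _ _ hψ).1.const_mul _) ((gs _ _ hr).1.const_mul _)]
      refine integral_mono (gs _ _ hf).1 (((gs _ _ hψ).1.const_mul _).add
        ((gs _ _ hr).1.const_mul _)) fun z => ?_
      show κ z * f z ^ 2 ≤ (1 + t) * (κ z * (1 * φ k z + -c * ub n z) ^ 2) +
        (1 + 1 / t) * (κ z * (1 * f z + -1 * (1 * φ k z + -c * ub n z)) ^ 2)
      have h1 : ∀ a b : ℝ, (a + b) ^ 2 ≤ (1 + t) * a ^ 2 + (1 + 1 / t) * b ^ 2 := by
        intro a b
        have h2 : (1 + t) * a ^ 2 + (1 + 1 / t) * b ^ 2 - (a + b) ^ 2 = (t * a - b) ^ 2 / t := by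
          field_simp
          ring
        have h3 : 0 ≤ (t * a - b) ^ 2 / t := by positivity
        linarith
      have h4 := h1 (1 * φ k z + -c * ub n z) (1 * f z + -1 * (1 * φ k z + -c * ub n z))
      have h5 : (1 * φ k z + -c * ub n z) + (1 * f z + -1 * (1 * φ k z + -c * ub n z)) = f z := by
        ring
      rw [h5] at h4
      have h6 := mul_le_mul_of_nonneg_left h4 (hκ0 z).le
      linarith
    have hB : en 2 (fun z => (1 : ℝ) • hg (φ k) z + (-c) • hg (ub n) z) ≤
        (1 + t) * en 2 h + (1 + 1 / t) * (4 * ε) := by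
      have h1 : ∀ a b : G n, ‖a + b‖ ^ 2 ≤ (1 + t) * ‖a‖ ^ 2 + (1 + 1 / t) * ‖b‖ ^ 2 := by
        intro a b
        have h2 : (1 + t) * ‖a‖ ^ 2 + (1 + 1 / t) * ‖b‖ ^ 2 - (‖a‖ + ‖b‖) ^ 2 =
            (t * ‖a‖ - ‖b‖) ^ 2 / t := by
          field_simp
          ring
        have h3 : 0 ≤ (t * ‖a‖ - ‖b‖) ^ 2 / t := by positivity
        have h4 : ‖a + b‖ ^ 2 ≤ (‖a‖ + ‖b‖) ^ 2 :=
          pow_le_pow_left₀ (norm_nonneg _) (norm_add_le _ _) 2
        linarith
      have h2 : en 2 (fun z => (1 : ℝ) • hg (φ k) z + (-c) • hg (ub n) z) ≤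
          (1 + t) * en 2 h + (1 + 1 / t) * en 2 (fun z => (1 : ℝ) • h z +
            (-1 : ℝ) • ((1 : ℝ) • hg (φ k) z + (-c) • hg (ub n) z)) := by
        rw [hen, hen, hen, ← integral_const_mul, ← integral_const_mul,
          ← integral_add ((hgi _ _ hf).const_mul _) ((hgi _ _ hr).const_mul _)]
        refine integral_mono (hgi _ _ hψ) (((hgi _ _ hf).const_mul _).add
          ((hgi _ _ hr).const_mul _)) fun z => ?_
        show ‖(1 : ℝ) • hg (φ k) z + (-c) • hg (ub n) z‖ ^ 2 ≤ (1 + t) * ‖h z‖ ^ 2 +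
          (1 + 1 / t) * ‖(1 : ℝ) • h z + (-1 : ℝ) • ((1 : ℝ) • hg (φ k) z +
            (-c) • hg (ub n) z)‖ ^ 2
        have h3 := h1 (h z) (-((1 : ℝ) • h z + (-1 : ℝ) • ((1 : ℝ) • hg (φ k) z +
          (-c) • hg (ub n) z)))
        rw [norm_neg] at h3
        have h4 : h z + -((1 : ℝ) • h z + (-1 : ℝ) • ((1 : ℝ) • hg (φ k) z +
          (-c) • hg (ub n) z)) = (1 : ℝ) • hg (φ k) z + (-c) • hg (ub n) z := by
          module
        rw [h4] at h3
        exact h3
      have h3 : 0 < 1 + 1 / t := by positivity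
      nlinarith
    have hC : S * ∫ z, κ z * (1 * f z + -1 * (1 * φ k z + -c * ub n z)) ^ 2 ≤ 4 * ε :=
      (gs _ _ hr).2.trans hrε
    set A1 := ∫ z, κ z * (1 * φ k z + -c * ub n z) ^ 2
    set A2 := ∫ z, κ z * (1 * f z + -1 * (1 * φ k z + -c * ub n z)) ^ 2
    have hq1 : 0 < q - 1 := by linarith
    calc S * (q - 1) * ∫ z, κ z * f z ^ 2
        ≤ S * (q - 1) * ((1 + t) * A1 + (1 + 1 / t) * A2) :=
          mul_le_mul_of_nonneg_left hA (by positivity)
      _ = (1 + t) * (S * (q - 1) * A1) + (1 + 1 / t) * ((q - 1) * (S * A2)) := by ring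
      _ ≤ (1 + t) * ((1 + t) * en 2 h + (1 + 1 / t) * (4 * ε)) +
          (1 + 1 / t) * ((q - 1) * (4 * ε)) := by
        refine add_le_add ?_ ?_
        · exact mul_le_mul_of_nonneg_left (hsv.trans hB) (by positivity)
        · exact mul_le_mul_of_nonneg_left (mul_le_mul_of_nonneg_left hC hq1.le) (by positivity)
  -- limits
  have lim1 : ∀ t : ℝ, 0 < t → S * (q - 1) * ∫ z, κ z * f z ^ 2 ≤ (1 + t) * ((1 + t) * en 2 h) := by
    intro t ht
    have h1 : Tendsto (fun k => (1 + t) * ((1 + t) * en 2 h + (1 + 1 / t) *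
        (4 * en 2 (fun z => hg (φ k) z - h z))) +
        (1 + 1 / t) * ((q - 1) * (4 * en 2 (fun z => hg (φ k) z - h z)))) atTop
        (𝓝 ((1 + t) * ((1 + t) * en 2 h + (1 + 1 / t) * (4 * 0)) +
          (1 + 1 / t) * ((q - 1) * (4 * 0)))) :=
      ((((hφe.const_mul 4).const_mul (1 + 1 / t)).const_add ((1 + t) * en 2 h)).const_mul
        (1 + t)).add (((hφe.const_mul 4).const_mul (q - 1)).const_mul (1 + 1 / t))
    have h2 := ge_of_tendsto' h1 fun k => main k t ht
    simpa using h2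
  have h1 : Tendsto (fun t : ℝ => (1 + t) * ((1 + t) * en 2 h)) (𝓝[>] 0)
      (𝓝 ((1 + 0) * ((1 + 0) * en 2 h))) := by
    refine Tendsto.mono_left ?_ nhdsWithin_le_nhds
    exact Continuous.tendsto (f := fun t : ℝ => (1 + t) * ((1 + t) * en 2 h)) (by fun_prop) 0
  have h2 := ge_of_tendsto h1 (eventually_nhdsWithin_of_forall fun t ht => lim1 t ht)
  simpa using h2

end Pool.Agent.H54.HB
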