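import Pool.Agent.H27.HB.TX
import Pool.Agent.H46.HB.GLI

/-!
# MP_8352e3_an, row GLJ: the limit of the integrals with the second divided difference
-/

set_option autoImplicit false

namespace Pool.Agent.H54.HB
open MeasureTheory Set Filter Topology Pool.Agent.H80.HS Pool.Agent.H93.HQ Pool.Agent.H27.HB
open scoped ContDiff ENNReal

/-- GLJ: the limit of the integrals with `bb`. -/
theorem pf_GLJ (hBBE : T_BBE) (hVIT : T_VIT) : T_GLJ := by
  obtain ⟨hb1, hb2, hb3⟩ := hBBE
  intro n q Q C u v W y Z hQ hq hqQ hy hym hZm hum hvm hWm hu hv hul hvl hWl htu htv hW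
  have hqk0 : ∀ k, 0 < q k := fun k => by have := hq k; linarith
  have huvm : ∀ k, AEMeasurable (fun z => (u k z, v k z)) volume := fun k =>
    (hum k).aemeasurable.prodMk (hvm k).aemeasurable
  refine Pool.Agent.H46.HB.core hVIT q Q C u v W (fun k => (q k - 2) / q k) ((Q - 2) / (2 * Q)) _ _
    hq hqQ hum hvm hu hv htu htv hW ?_ ?_ ?_ ?_ ?_
  · intro k
    exact (((hb3 (q k)).comp_aemeasurable (huvm k)).mul
      ((hWm k).aemeasurable.pow_const 2)).aestronglyMeasurable
  · filter_upwards [hul, hvl, hWl] with z h1 h2 h3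
    exact (hb2 q _ _ Q (y z) hQ (hy z) hqQ h1 h2).mul (h3.pow 2)
  · intro k
    filter_upwards [hu k, hv k] with z h1 h2
    obtain ⟨-, h3, h4⟩ := hb1 (q k) (u k z) (v k z) (hq k) h1 h2
    have hm0 : 0 ≤ max (u k z) (v k z) := le_max_of_le_left h1
    have h5 : (max (u k z) (v k z) ^ q k) ^ ((q k - 2) / q k) =
        max (u k z) (v k z) ^ (q k - 2) := by
      rw [← Real.rpow_mul hm0]
      congr 1
      have := hqk0 k
      field_simp
    have h6 : (|W k z| ^ q k) ^ (1 - (q k - 2) / q k) = W k z ^ 2 := by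
      rw [← Real.rpow_mul (abs_nonneg _)]
      have h7 : q k * (1 - (q k - 2) / q k) = 2 := by
        have := hqk0 k
        field_simp
        ring
      rw [h7, Real.rpow_two, sq_abs]
    rw [h5, h6, abs_mul, abs_of_nonneg h3, abs_of_nonneg (sq_nonneg (W k z))]
    gcongr
  · have : 0 < Q - 2 := by linarith
    positivity
  · have h1 : Tendsto (fun k => (q k - 2) / q k) atTop (𝓝 ((Q - 2) / Q)) :=
      (hqQ.sub_const 2).div hqQ (by linarith)
    have h2 : (Q - 2) / (2 * Q) < (Q - 2) / Q := by
      have : 0 < Q - 2 := by linarith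
      have : 0 < Q := by linarith
      apply div_lt_div_of_pos_left <;> linarith
    filter_upwards [h1.eventually (lt_mem_nhds h2)] with k hk
    refine ⟨hk.le, ?_⟩
    rw [div_lt_one (hqk0 k)]
    linarith

end Pool.Agent.H54.HB
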